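import Mathlib
import Pool.Agent.X51.AvoidNum
import Pool.Agent.X51.AvoidComb
import Pool.Agent.X51.AvoidCyc

open Finset SimpleGraph

namespace Pool.Agent.Results.MP_24f62a_co.LinearBiasOneCycle

open Pool.Agent.X51.Avoid

/-- The two rule sets. -/
inductive Rules
  | strict
  | monotone

variable {n : ℕ}

/-- `LegalMove r k R X`: under the rules `r`, a player with bias `k` may claim in one turn exactly
the set `X` of edges when `R` is the set of unclaimed edges.  Strict rules: he claims exactly `k`
edges; monotone rules: he claims at least `k` edges; in both cases he claims all remaining edges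
if fewer than `k` remain. -/
def LegalMove (r : Rules) (k : ℕ) (R X : Finset (Sym2 (Fin n))) : Prop :=
  X ⊆ R ∧
    match r with
    | Rules.strict => X.card = min k R.card
    | Rules.monotone => min k R.card ≤ X.card

/-- The graph with edge set `A` contains at most one cycle: any two of its cycles have the same
edges. -/
def AtMostOneCycle (A : Finset (Sym2 (Fin n))) : Prop :=
  ∀ (u v : Fin n) (p : (fromEdgeSet (A : Set (Sym2 (Fin n)))).Walk u u)
    (q : (fromEdgeSet (A : Set (Sym2 (Fin n)))).Walk v v),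
    p.IsCycle → q.IsCycle → p.edges.toFinset = q.edges.toFinset

/-- `AvoiderWins r b A R`: in the `(1:b)` Avoider-Enforcer game with rules `r`, from the position in
which Avoider has claimed `A`, the unclaimed edges are `R` and Avoider is to move, Avoider has a
strategy guaranteeing that his final graph contains at most one cycle.  Either no edge is left and
his graph has at most one cycle, or he has a legal move `X` such that for every legal answer `Y`
of Enforcer he still wins from the resulting position. -/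
inductive AvoiderWins (r : Rules) (b : ℕ) :
    Finset (Sym2 (Fin n)) → Finset (Sym2 (Fin n)) → Prop
  | over (A : Finset (Sym2 (Fin n))) (h : AtMostOneCycle A) : AvoiderWins r b A ∅
  | move (A R X : Finset (Sym2 (Fin n))) (hR : R.Nonempty) (hX : LegalMove r 1 R X)
      (h : ∀ Y : Finset (Sym2 (Fin n)), LegalMove r b (R \ X) Y →
        AvoiderWins r b (A ∪ X) ((R \ X) \ Y)) : AvoiderWins r b A R

/-- The board: all edges of the complete graph on `Fin n`. -/
def board (n : ℕ) : Finset (Sym2 (Fin n)) := (⊤ : SimpleGraph (Fin n)).edgeFinset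

lemma atMostOne_of_acyclic_insert {A : Finset (Sym2 (Fin n))} (e : Sym2 (Fin n))
    (hA : (fromEdgeSet (A : Set (Sym2 (Fin n)))).IsAcyclic) : AtMostOneCycle (A ∪ {e}) := by
  intro u v p q hp hq
  refine at_most_one (e := e) hA ?_ p q hp hq
  intro f hf hfe
  rw [edgeSet_fromEdgeSet] at hf ⊢
  refine ⟨?_, hf.2⟩
  have := hf.1
  simp only [Finset.coe_union, Finset.coe_singleton, Set.mem_union, Set.mem_singleton_iff,
    hfe, or_false] at this
  exact this

lemma atMostOne_of_acyclic {A : Finset (Sym2 (Fin n))}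
    (hA : (fromEdgeSet (A : Set (Sym2 (Fin n)))).IsAcyclic) : AtMostOneCycle A :=
  fun _ _ p _ hp _ => absurd hp (hA p)

lemma legal_single (r : Rules) {R : Finset (Sym2 (Fin n))} {e : Sym2 (Fin n)} (he : e ∈ R) :
    LegalMove r 1 R {e} := by
  refine ⟨by simpa using he, ?_⟩
  have : 1 ≤ R.card := Finset.card_pos.2 ⟨e, he⟩
  cases r
  · simp only [Finset.card_singleton]; omega
  · simp only [Finset.card_singleton]; omega

lemma legal_card {r : Rules} {k : ℕ} {R Y : Finset (Sym2 (Fin n))} (h : LegalMove r k R Y) :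
    min k R.card ≤ Y.card := by
  obtain ⟨_, h⟩ := h
  cases r
  · exact h.ge
  · exact h

/-- the sixth root of the number of free edges -/
noncomputable def rt (F : ℝ) : ℝ := F ^ ((6 : ℕ) : ℝ)⁻¹

lemma rt_nonneg {F : ℝ} (hF : 0 ≤ F) : 0 ≤ rt F := Real.rpow_nonneg hF _

lemma rt_pow {F : ℝ} (hF : 0 ≤ F) : rt F ^ 6 = F := Real.rpow_inv_natCast_pow hF (by norm_num)

/-- the cube root -/
noncomputable def ct (F : ℝ) : ℝ := F ^ ((3 : ℕ) : ℝ)⁻¹

lemma ct_nonneg {F : ℝ} (hF : 0 ≤ F) : 0 ≤ ct F := Real.rpow_nonneg hF _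

lemma ct_pow {F : ℝ} (hF : 0 ≤ F) : ct F ^ 3 = F := Real.rpow_inv_natCast_pow hF (by norm_num)

lemma main {b : ℕ} (r : Rules) (hn : 1 ≤ n) (hb : 100 * (n : ℝ) ≤ b) :
    ∀ (m : ℕ) (A R : Finset (Sym2 (Fin n))), R.card = m → (∀ e ∈ R, ¬ e.IsDiag) →
      (fromEdgeSet (A : Set (Sym2 (Fin n)))).IsAcyclic →
      ∀ c : Fin n → Fin n, Respects c A →
      (PH c : ℝ) ^ 4 * R.card ≤ (n : ℝ) ^ 6 →
      (PP c : ℝ) ≤ n + 3 / 25 * ct n ^ 2 * (ct n - rt R.card) →
      AvoiderWins r b A R := by
  intro m
  induction m using Nat.strong_induction_on with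
  | _ m ih =>
    intro A R hm hR hA c hc hi1 hi2
    rcases R.eq_empty_or_nonempty with rfl | hne
    · exact AvoiderWins.over A (atMostOne_of_acyclic hA)
    by_cases hsmall : R.card ≤ b + 1
    · obtain ⟨e, he⟩ := hne
      refine AvoiderWins.move A R {e} ⟨e, he⟩ (legal_single r he) ?_
      intro Y hY
      have h1 := legal_card hY
      have h2 : (R \ {e}).card = R.card - 1 := by
        rw [Finset.card_sdiff_of_subset (by simpa using he), Finset.card_singleton]
      have h3 : (R \ {e}) \ Y = ∅ := by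
        have h4 : Y = R \ {e} := by
          refine Finset.eq_of_subset_of_card_le hY.1 ?_
          omega
        rw [h4]; simp
      rw [h3]
      exact AvoiderWins.over _ (atMostOne_of_acyclic_insert e hA)
    · push Not at hsmall
      have hFb : (b : ℝ) ≤ (R.card : ℝ) := by exact_mod_cast (by omega : b ≤ R.card)
      have hnR : (1 : ℝ) ≤ n := by exact_mod_cast hn
      have hF0 : (0 : ℝ) ≤ (R.card : ℝ) := Nat.cast_nonneg _
      have hn0 : (0 : ℝ) ≤ (n : ℝ) := Nat.cast_nonneg _
      have hcr : 2 * (R.card : ℝ) - ((PP c : ℝ) - n) ≤ ((cross c R).card : ℝ) := by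
        have := card_cross hR c
        have h' : 2 * (R.card : ℝ) + n ≤ ((cross c R).card : ℝ) + PP c := by exact_mod_cast this
        linarith
      have hPsmall : (PP c : ℝ) ≤ 28 / 25 * n := by
        have h0 : 0 ≤ 3 / 25 * ct n ^ 2 * rt R.card := by
          have := rt_nonneg hF0
          have := ct_nonneg hn0
          positivity
        have h1 : 3 / 25 * ct n ^ 2 * (ct n - rt R.card) =
          3 / 25 * ct n ^ 3 - 3 / 25 * ct n ^ 2 * rt R.card := by ring
        rw [h1, ct_pow hn0] at hi2
        linarith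
      have hcne : (cross c R).Nonempty := by
        rw [← Finset.card_pos]
        have : (0 : ℝ) < ((cross c R).card : ℝ) := by linarith
        exact_mod_cast this
      obtain ⟨u, v, huv, hcuv, hcost⟩ := exists_cheap c hcne
      have hcostR : ((cross c R).card : ℝ) * ((sz c (c u) : ℝ) * sz c (c v) *
          (sz c (c u) + sz c (c v))) ≤ 2 * PH c * PP c := by
        have : (((cross c R).card * cost c (u, v) : ℕ) : ℝ) ≤ ((2 * PH c * PP c : ℕ) : ℝ) := by
          exact_mod_cast hcost
        simpa [cost] using this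
      refine AvoiderWins.move A R {s(u, v)} ⟨_, huv⟩ (legal_single r huv) ?_
      intro Y hY
      have h1 := legal_card hY
      have h2 : (R \ {s(u, v)}).card = R.card - 1 := by
        rw [Finset.card_sdiff_of_subset (by simpa using huv), Finset.card_singleton]
      have h3 : ((R \ {s(u, v)}) \ Y).card = (R \ {s(u, v)}).card - Y.card :=
        Finset.card_sdiff_of_subset hY.1
      have h4 : ((R \ {s(u, v)}) \ Y).card + b + 1 ≤ R.card := by omega
      have hF' : ((((R \ {s(u, v)}) \ Y).card : ℕ) : ℝ) ≤ (R.card : ℝ) - b := by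
        have : ((((R \ {s(u, v)}) \ Y).card : ℕ) : ℝ) + b + 1 ≤ (R.card : ℝ) := by
          exact_mod_cast h4
        linarith
      have hF'0 : (0 : ℝ) ≤ ((((R \ {s(u, v)}) \ Y).card : ℕ) : ℝ) := Nat.cast_nonneg _
      have hs : (1 : ℝ) ≤ (sz c (c u) : ℝ) := by exact_mod_cast sz_pos c u
      have ht : (1 : ℝ) ≤ (sz c (c v) : ℝ) := by exact_mod_cast sz_pos c v
      have hPH : (0 : ℝ) < (PH c : ℝ) := by exact_mod_cast PH_pos c hn
      have hPP : (0 : ℝ) < (PP c : ℝ) := by exact_mod_cast PP_pos c hn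
      obtain ⟨j1, j2⟩ := num_step hnR hb hFb hF'0 hF' hs ht hPH hcr hcostR (rt_nonneg hF0)
        (rt_nonneg hF'0) (ct_nonneg hn0) (rt_pow hF0) (rt_pow hF'0) (ct_pow hn0) hi1 hi2 hPP
      refine ih _ (by omega) (A ∪ {s(u, v)}) ((R \ {s(u, v)}) \ Y) rfl ?_
        (acyclic_insert hc hA hcuv) (merge c (c u) (c v)) (respects_merge hc hcuv) ?_ ?_
      · intro e he
        exact hR e (Finset.mem_sdiff.1 (Finset.mem_sdiff.1 he).1).1
      · rw [PH_merge c hcuv]
        push_cast
        exact j1
      · rw [PP_merge c hcuv]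
        push_cast
        exact j2

lemma board_card_le (n : ℕ) : ((board n).card : ℝ) ≤ (n : ℝ) ^ 2 := by
  have h : (board n).card = n.choose 2 := by
    unfold board
    rw [card_edgeFinset_top_eq_card_choose_two, Fintype.card_fin]
  rw [h]
  have h2 : n.choose 2 ≤ n ^ 2 := Nat.choose_le_pow n 2
  exact_mod_cast h2

/-- MP_24f62a_co, Q1, both rule sets: there is a constant `C > 0` such that for all large `n` and
all `b ≥ C n`, Avoider has a strategy in the `(1:b)` game on `E(K_n)` guaranteeing that his final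
graph contains at most one cycle, under the strict and under the monotone rules. -/
theorem result : ∃ C : ℝ, 0 < C ∧ ∃ N : ℕ, ∀ n : ℕ, N ≤ n → ∀ b : ℕ, C * (n : ℝ) ≤ (b : ℝ) →
    ∀ r : Rules, AvoiderWins r b (∅ : Finset (Sym2 (Fin n))) (board n) := by
  refine ⟨100, by norm_num, 1, ?_⟩
  intro n hn b hb r
  have hn0 : (0 : ℝ) ≤ (n : ℝ) := Nat.cast_nonneg _
  have hbc := board_card_le n
  refine main r hn hb _ ∅ (board n) rfl ?_ ?_ id ?_ ?_ ?_
  · intro e he
    exact not_isDiag_of_mem_edgeFinset he
  · rw [Finset.coe_empty, fromEdgeSet_empty]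
    exact isAcyclic_bot
  · intro x y h
    simp at h
  · rw [PH_id]
    have : (0 : ℝ) ≤ (n : ℝ) ^ 4 := by positivity
    calc (n : ℝ) ^ 4 * ((board n).card : ℝ) ≤ (n : ℝ) ^ 4 * (n : ℝ) ^ 2 :=
          mul_le_mul_of_nonneg_left hbc this
      _ = (n : ℝ) ^ 6 := by ring
  · rw [PP_id]
    have h1 : rt ((board n).card : ℝ) ≤ ct n := by
      have h2 : rt ((board n).card : ℝ) ^ 6 ≤ ct (n : ℝ) ^ 6 := by
        rw [rt_pow (Nat.cast_nonneg _)]
        have : ct (n : ℝ) ^ 6 = (ct (n : ℝ) ^ 3) ^ 2 := by ring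
        rw [this, ct_pow hn0]
        exact hbc
      exact (pow_le_pow_iff_left₀ (rt_nonneg (Nat.cast_nonneg _)) (ct_nonneg hn0)
        (by norm_num)).mp h2
    have h3 : 0 ≤ 3 / 25 * ct (n : ℝ) ^ 2 * (ct n - rt ((board n).card : ℝ)) := by
      refine mul_nonneg (by positivity) (by linarith)
    linarith

end Pool.Agent.Results.MP_24f62a_co.LinearBiasOneCycle
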